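import Pool.Agent.TH676.Z.MacCon
import Pool.Agent.Y335.FL.Girth

set_option autoImplicit false
set_option linter.unusedSectionVars false

/-! # Closed walks and paths in circuits -/

namespace Pool.Agent.K4H84.ST

open Finset Pool.Agent.TH676.Z

variable {V E : Type} [Fintype V] [DecidableEq V] [Fintype E] [DecidableEq E]

theorem bd2_jn {src dst : E → V} {e : E} {a b : V} (h : Jn src dst e a b) (x : V) :
    bd2 src dst (Pi.single e 1) x = (if x = a then 1 else 0) + (if x = b then 1 else 0) := by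
  rw [MacConx.bd2_single]
  rcases h with ⟨rfl, rfl⟩ | ⟨rfl, rfl⟩
  · simp only [eq_comm]
  · rw [add_comm]
    simp only [eq_comm]

theorem bd2_sum {ι : Type} (src dst : E → V) (s : Finset ι) (f : ι → E → ZMod 2) (x : V) :
    bd2 src dst (∑ i ∈ s, f i) x = ∑ i ∈ s, bd2 src dst (f i) x := by
  classical
  induction s using Finset.induction_on with
  | empty => simp [bd2]
  | insert a s ha ih => rw [sum_insert ha, sum_insert ha, MacConx.bd2_add, ih]

/-- the vertices `a` and `b` are joined in the set `Q` of edges -/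
def Lk (src dst : E → V) (Q : E → Prop) (a b : V) : Prop :=
  ∃ P : E → ZMod 2, (∀ e, P e ≠ 0 → Q e) ∧
    ∀ x, bd2 src dst P x = (if x = a then 1 else 0) + (if x = b then 1 else 0)

theorem lk_refl (src dst : E → V) (Q : E → Prop) (a : V) : Lk src dst Q a a := by
  refine ⟨0, fun e he => absurd rfl he, fun x => ?_⟩
  have : ∀ c : ZMod 2, c + c = 0 := by decide
  rw [this]
  simp [bd2]

theorem lk_trans {src dst : E → V} {Q : E → Prop} {a b c : V} (h1 : Lk src dst Q a b)
    (h2 : Lk src dst Q b c) : Lk src dst Q a c := by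
  obtain ⟨P, hP, hb⟩ := h1
  obtain ⟨P', hP', hb'⟩ := h2
  refine ⟨P + P', fun e he => ?_, fun x => ?_⟩
  · by_cases h : P e = 0
    · rw [Pi.add_apply, h, zero_add] at he
      exact hP' e he
    · exact hP e h
  · rw [MacConx.bd2_add, hb, hb']
    generalize (if x = a then (1 : ZMod 2) else 0) = α
    generalize (if x = b then (1 : ZMod 2) else 0) = β
    generalize (if x = c then (1 : ZMod 2) else 0) = γ
    revert α β γ
    decide

theorem lk_symm {src dst : E → V} {Q : E → Prop} {a b : V} (h1 : Lk src dst Q a b) :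
    Lk src dst Q b a := by
  obtain ⟨P, hP, hb⟩ := h1
  exact ⟨P, hP, fun x => by rw [hb, add_comm]⟩

theorem lk_jn {src dst : E → V} {Q : E → Prop} {e : E} {a b : V} (h : Jn src dst e a b)
    (he : Q e) : Lk src dst Q a b := by
  refine ⟨Pi.single e 1, fun d hd => ?_, fun x => bd2_jn h x⟩
  by_cases h1 : d = e
  · rw [h1]; exact he
  · exact absurd (Pi.single_eq_of_ne h1 _) hd

/-- any two vertices of a circuit are joined in it -/
theorem lk_circ {src dst : E → V} {Q : E → Prop} {k : ℕ} {v : Fin (k + 2) → V}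
    {ed : Fin (k + 2) → E} (hj : ∀ i, Jn src dst (ed i) (v i) (v (i + 1))) (hQ : ∀ i, Q (ed i))
    (a b : Fin (k + 2)) : Lk src dst Q (v a) (v b) := by
  have h0 : ∀ a : Fin (k + 2), Lk src dst Q (v 0) (v a) := by
    intro a
    induction a using Fin.induction with
    | zero => exact lk_refl _ _ _ _
    | succ i ih =>
      refine lk_trans ih ?_
      have h := hj i.castSucc
      rw [Fin.coeSucc_eq_succ] at h
      exact lk_jn h (hQ _)
  exact lk_trans (lk_symm (h0 a)) (h0 b)

/-- closed walks: the steps in `I` use edges, the others stay -/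
theorem walk {src dst : E → V} {k : ℕ} {r : Fin (k + 2) → V} {e : Fin (k + 2) → E}
    {I : Finset (Fin (k + 2))} (hI : ∀ i ∈ I, Jn src dst (e i) (r i) (r (i + 1)))
    (hI' : ∀ i, i ∉ I → r i = r (i + 1)) (x : V) :
    bd2 src dst (∑ i ∈ I, (Pi.single (e i) 1 : E → ZMod 2)) x = 0 := by
  rw [bd2_sum]
  have h1 : ∀ i ∈ I, bd2 src dst (Pi.single (e i) 1) x =
      (if x = r i then 1 else 0) + (if x = r (i + 1) then 1 else 0) :=
    fun i hi => bd2_jn (hI i hi) x
  rw [sum_congr rfl h1]
  have h2 : ∑ i ∈ I, ((if x = r i then (1 : ZMod 2) else 0) + (if x = r (i + 1) then 1 else 0)) =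
      ∑ i, ((if x = r i then (1 : ZMod 2) else 0) + (if x = r (i + 1) then 1 else 0)) := by
    refine sum_subset (subset_univ _) ?_
    intro i _ hi
    rw [← hI' i hi]
    generalize (if x = r i then (1 : ZMod 2) else 0) = α
    revert α
    decide
  rw [h2, sum_add_distrib]
  have h3 : ∑ i : Fin (k + 2), (if x = r (i + 1) then (1 : ZMod 2) else 0) =
      ∑ i : Fin (k + 2), (if x = r i then (1 : ZMod 2) else 0) :=
    Equiv.sum_comp (Equiv.addRight (1 : Fin (k + 2)))
      (fun i => if x = r i then (1 : ZMod 2) else 0)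
  rw [h3]
  generalize ∑ i : Fin (k + 2), (if x = r i then (1 : ZMod 2) else 0) = α
  revert α
  decide

theorem sum_single_ne {ι : Type} [DecidableEq ι] {e : ι → E} {I : Finset ι}
    (hinj : ∀ i ∈ I, ∀ j ∈ I, e i = e j → i = j) {i : ι} (hi : i ∈ I) :
    (∑ j ∈ I, (Pi.single (e j) 1 : E → ZMod 2)) (e i) = 1 := by
  rw [Finset.sum_apply, sum_eq_single i]
  · simp
  · intro j hj hne
    exact Pi.single_eq_of_ne (fun h => hne (hinj i hi j hj h).symm) _
  · intro h; exact absurd hi h

theorem sum_single_supp {ι : Type} {e : ι → E} {I : Finset ι} {d : E}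
    (h : (∑ j ∈ I, (Pi.single (e j) 1 : E → ZMod 2)) d ≠ 0) : ∃ i ∈ I, e i = d := by
  by_contra hc
  push Not at hc
  apply h
  rw [Finset.sum_apply]
  refine sum_eq_zero fun j hj => ?_
  exact Pi.single_eq_of_ne (fun h => hc j hj h.symm) _

end Pool.Agent.K4H84.ST
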