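import Pool.Agent.K4H84.ST.Rep
import Pool.Agent.Y358.IN.Base
import Pool.Agent.Y335.FL.Surf
import Pool.Agent.Y335.FL.CircEx
import Pool.Agent.TH676.Z.Dim
import Pool.Agent.TH676.Z.DegS

set_option autoImplicit false
set_option linter.unusedSectionVars false

/-! # Faces of a minimal host; counting -/

namespace Pool.Agent.K4H84.ST

open Finset Pool.Agent.TH676.Z Pool.Agent.Y335.FL Pool.Agent.Y358.IN

variable {V E : Type} [Fintype V] [DecidableEq V] [Fintype E] [DecidableEq E]
variable {W D : Type} [Fintype W] [DecidableEq W] [Fintype D] [DecidableEq D]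

theorem adj_symm {src dst : E → V} {a b : V} (h : Adj src dst a b) : Adj src dst b a := by
  obtain ⟨h1, e, h2⟩ := h
  exact ⟨h1.symm, e, h2.symm⟩

theorem tri_of_girth {src dst : E → V} (hG : Girth (Adj src dst) 12) :
    ∀ a b c, Adj src dst a b → Adj src dst b c → Adj src dst c a → False := by
  intro a b c hab hbc hca
  refine hG 0 (by norm_num) ![a, b, c] ?_ ?_
  · intro i j hij
    have h1 := hab.1
    have h2 := hbc.1
    have h3 := hca.1
    fin_cases i <;> fin_cases j <;> simp_all
  · intro i
    fin_cases i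
    · exact hab
    · exact hbc
    · exact hca

theorem face12 {src dst : E → V} (hG : Girth (Adj src dst) 12) (hP : NoPar src dst)
    {A : Finset V} {h : ℕ} {S T : D → W} {F : Finset D} {R : V → Finset W}
    (hm : Mn (Adj src dst) A h S T F R) (ι : Type) [Fintype ι] (K : ι → D → ZMod 2)
    (hK : Fam h S T F K) (i0 : ι) (h0 : K i0 ≠ 0) :
    12 ≤ (univ.filter (fun e => K i0 e ≠ 0)).card := by
  classical
  have htri := tri_of_girth hG
  have hQF : ∀ d, K i0 d ≠ 0 → d ∈ F := by
    intro d hd
    by_contra hc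
    exact hd ((hK.mem i0).1 d hc)
  have hQl : ∀ d, K i0 d ≠ 0 → S d ≠ T d := fun d hd => hm.loop (hQF d hd) (Or.inl ⟨rfl, rfl⟩)
  obtain ⟨k, v, ed, hv, hed, hj, hQ⟩ := circEx W D S T (univ.filter (fun e => K i0 e ≠ 0)) (by
    obtain ⟨e0, he0⟩ := Function.ne_iff.1 h0
    exact ⟨e0, mem_filter.2 ⟨mem_univ _, he0⟩⟩) (fun e he => hQl e (mem_filter.1 he).2) (by
    intro y e he hey
    by_contra hcon
    push Not at hcon
    have hxe := (mem_filter.1 he).2
    have h1 := (hK.mem i0).2 y
    unfold bd2 at h1
    rw [sum_eq_single e] at h1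
    · have h2 := hQl e hxe
      rcases hey with h3 | h3
      · have h4 : T e ≠ y := fun h => h2 (h3.trans h.symm)
        rw [if_pos h3, if_neg h4, add_zero] at h1
        exact hxe h1
      · have h4 : S e ≠ y := fun h => h2 (h.trans h3.symm)
        rw [if_pos h3, if_neg h4, zero_add] at h1
        exact hxe h1
    · intro e' _ hne
      by_cases hx' : K i0 e' = 0
      · simp [hx']
      · have h2 := hcon e' (mem_filter.2 ⟨mem_univ _, hx'⟩) hne
        rw [if_neg h2.1, if_neg h2.2, add_zero]
    · intro h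
      exact absurd (mem_univ e) h)
  have hQ' : ∀ i, K i0 (ed i) ≠ 0 := fun i => (mem_filter.1 (hQ i)).2
  have hcard : k + 2 ≤ (univ.filter (fun e => K i0 e ≠ 0)).card := by
    calc k + 2 = (univ : Finset (Fin (k + 2))).card := by rw [card_univ, Fintype.card_fin]
      _ ≤ _ := card_le_card_of_injOn ed (fun i _ => hQ i) (hed.injOn)
  -- the regions of the edges
  have hr : ∀ i, ∃ u, v i ∈ R u ∧ v (i + 1) ∈ R u := fun i => hm.edge (hQF _ (hQ' i)) (hj i)
  choose r hr1 hr2 using hr
  -- the labels of the vertices are different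
  have hlab : ∀ a b, a ≠ b → ¬ ∀ u, v a ∈ R u → v b ∈ R u := by
    intro a b hab hl
    refine hm.face_ne hK i0 (x := v a) (y := v b) (fun h => hab (hv h))
      (lk_circ hj hQ' b a) (mem_us.2 ⟨_, hr1 a⟩) hl
  set I : Finset (Fin (k + 2)) := univ.filter (fun i => r i ≠ r (i + 1)) with hI
  have hIm : ∀ i, i ∈ I ↔ r i ≠ r (i + 1) := fun i => by simp [hI]
  have hadj : ∀ i ∈ I, Adj src dst (r i) (r (i + 1)) := fun i hi =>
    hm.rp.adj (hr2 i) (hr1 (i + 1)) ((hIm i).1 hi)
  rcases I.eq_empty_or_nonempty with hIe | ⟨i1, hi1⟩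
  · -- the circuit is in one region
    exfalso
    have hrc : ∀ i, r i = r (i + 1) := by
      intro i
      by_contra hne
      have := (hIm i).2 hne
      rw [hIe] at this
      exact notMem_empty _ this
    have hr0 : ∀ i, r i = r 0 := by
      intro i
      induction i using Fin.induction with
      | zero => rfl
      | succ i ih =>
        rw [← ih, hrc i.castSucc, Fin.coeSucc_eq_succ]
    have hz := walk (r := v) (e := ed) (I := univ) (src := S) (dst := T)
      (fun i _ => hj i) (fun i hi => absurd (mem_univ i) hi)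
    have hz0 : (∑ i : Fin (k + 2), (Pi.single (ed i) 1 : D → ZMod 2)) = 0 := by
      refine hm.acyc htri (v := r 0) ⟨fun e he => ?_, hz⟩ ?_
      · by_contra hc
        obtain ⟨i, _, rfl⟩ := sum_single_supp hc
        exact he (hQF _ (hQ' i))
      · intro d hd
        obtain ⟨i, _, rfl⟩ := sum_single_supp hd
        have h1 := hr1 i
        have h2 := hr2 i
        rw [hr0 i] at h1 h2
        rcases hj i with ⟨h3, h4⟩ | ⟨h3, h4⟩
        · rw [h3, h4]; exact ⟨h1, h2⟩
        · rw [h3, h4]; exact ⟨h2, h1⟩
    have h1 := sum_single_ne (e := ed) (I := univ) (fun i _ j _ h => hed h) (mem_univ (0 : Fin (k + 2)))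
    rw [hz0] at h1
    exact zero_ne_one h1
  · -- a closed trail
    obtain ⟨_, e1, _⟩ := hadj i1 hi1
    have hex : ∀ i, ∃ e, i ∈ I → Jn src dst e (r i) (r (i + 1)) := by
      intro i
      by_cases hi : i ∈ I
      · obtain ⟨_, e, he⟩ := hadj i hi
        exact ⟨e, fun _ => he⟩
      · exact ⟨e1, fun h => absurd h hi⟩
    choose e he using hex
    have hinj : ∀ i ∈ I, ∀ j ∈ I, e i = e j → i = j := by
      intro i hi j hj' hij
      have h1 := he i hi
      have h2 := he j hj'
      rw [← hij] at h2
      by_contra hne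
      refine hlab (i + 1) (j + 1) (fun h => hne (add_right_cancel h)) ?_
      intro u hu
      have h3 := hm.atmost htri (hr2 i) (hr1 (i + 1)) ((hIm i).1 hi) hu
      have h4 : u = r j ∨ u = r (j + 1) := by
        rcases h1 with ⟨a, b⟩ | ⟨a, b⟩ <;> rcases h2 with ⟨c, d⟩ | ⟨c, d⟩ <;>
          rcases h3 with h3 | h3
        · left; rw [h3, ← a, ← c]
        · right; rw [h3, ← b, ← d]
        · right; rw [h3, ← a, ← c]
        · left; rw [h3, ← b, ← d]
        · right; rw [h3, ← b, ← d]
        · left; rw [h3, ← a, ← c]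
        · left; rw [h3, ← b, ← d]
        · right; rw [h3, ← a, ← c]
      rcases h4 with h4 | h4
      · rw [h4]; exact hr2 j
      · rw [h4]; exact hr1 (j + 1)
    set z : E → ZMod 2 := ∑ i ∈ I, (Pi.single (e i) 1 : E → ZMod 2) with hz
    have hsupp : ∀ d, z d ≠ 0 → ∃ i ∈ I, e i = d := fun d hd => sum_single_supp hd
    have hzZ : z ∈ ZF src dst (ES src dst A) := by
      refine ⟨fun d hd => ?_, walk (fun i hi => he i hi) (fun i hi => ?_)⟩
      · by_contra hc
        obtain ⟨i, hi, rfl⟩ := hsupp d hc
        apply hd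
        have h1 : r i ∉ A := hm.rp.notA (hr1 i)
        have h2 : r (i + 1) ∉ A := hm.rp.notA (hr1 (i + 1))
        have h3 := (hIm i).1 hi
        simp only [ES, mem_filter, mem_univ, true_and]
        rcases he i hi with ⟨a, b⟩ | ⟨a, b⟩
        · rw [a, b]; exact ⟨h3, h1, h2⟩
        · rw [a, b]; exact ⟨h3.symm, h2, h1⟩
      · by_contra hne
        exact hi ((hIm i).2 hne)
    have hz0 : z ≠ 0 := by
      intro h
      have h1 := sum_single_ne hinj hi1
      rw [← hz, h] at h1
      exact zero_ne_one h1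
    have h12 := even circEx V E src dst (ES src dst A) 12 hG hP (by
      intro e he
      simp only [ES, mem_filter, mem_univ, true_and] at he
      exact he.1) z hzZ hz0
    have hle : (univ.filter (fun d => z d ≠ 0)).card ≤ k + 2 := by
      calc (univ.filter (fun d => z d ≠ 0)).card ≤ (I.image e).card := card_le_card (by
            intro d hd
            obtain ⟨i, hi, rfl⟩ := hsupp d (mem_filter.1 hd).2
            exact mem_image_of_mem _ hi)
        _ ≤ I.card := card_image_le
        _ ≤ (univ : Finset (Fin (k + 2))).card := card_le_card (subset_univ _)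
        _ = k + 2 := by rw [card_univ, Fintype.card_fin]
    omega

section count

variable {src dst : E → V} {A : Finset V} {h : ℕ} {S T : D → W} {F : Finset D}
  {R : V → Finset W}

/-- the edges of the graph and the vertices of the host -/
theorem count1 (hP : NoPar src dst) (htri : ∀ a b c, Adj src dst a b → Adj src dst b c →
    Adj src dst c a → False) (hm : Mn (Adj src dst) A h S T F R) :
    (ES src dst A).card ≤ (us R).card := by
  classical
  have hne : ∀ e ∈ ES src dst A, src e ≠ dst e := by
    intro e he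
    simp only [ES, mem_filter, mem_univ, true_and] at he
    exact he.1
  have hex : ∀ e ∈ ES src dst A, ∃ x, x ∈ R (src e) ∧ x ∈ R (dst e) := by
    intro e he
    simp only [ES, mem_filter, mem_univ, true_and] at he
    obtain ⟨h1, h2, h3⟩ := he
    exact (hm.rp.ad _ _ h2 h3 h1).1 ⟨h1, e, Or.inl ⟨rfl, rfl⟩⟩
  choose x hx1 hx2 using hex
  rw [← card_attach]
  refine card_le_card_of_injOn (fun e => x e.1 e.2) ?_ ?_
  · intro e _
    exact mem_coe.2 (mem_us.2 ⟨_, hx1 e.1 e.2⟩)
  · rintro ⟨e, he⟩ _ ⟨e', he'⟩ _ heq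
    have heq' : x e he = x e' he' := heq
    have h1 := hx1 e he
    have h2 := hx2 e he
    have h3 := hx1 e' he'
    have h4 := hx2 e' he'
    rw [← heq'] at h3 h4
    have h5 := hm.atmost htri h1 h2 (hne e he) h3
    have h6 := hm.atmost htri h1 h2 (hne e he) h4
    have h7 := hne e' he'
    apply Subtype.ext
    refine hP e e' (src e) (dst e) (hne e he) (Or.inl ⟨rfl, rfl⟩) ?_
    rcases h5 with h5 | h5 <;> rcases h6 with h6 | h6
    · exact absurd (h5.trans h6.symm) h7
    · exact Or.inl ⟨h5, h6⟩
    · exact Or.inr ⟨h5, h6⟩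
    · exact absurd (h5.trans h6.symm) h7

/-- the vertices and the edges of the host -/
theorem count2 (htri : ∀ a b c, Adj src dst a b → Adj src dst b c →
    Adj src dst c a → False) (hm : Mn (Adj src dst) A h S T F R) :
    2 * (us R).card ≤ F.card + (VS src dst A).card := by
  classical
  set N : Finset V := univ.filter (fun v => (R v).Nonempty) with hN
  have hNV : N ⊆ VS src dst A := by
    intro v hv
    obtain ⟨x, hx⟩ := (mem_filter.1 hv).2
    obtain ⟨w, hwv, hw⟩ := hm.two hx
    simp only [VS, mem_filter, mem_univ, true_and]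
    exact ⟨hm.rp.notA hx, w, hm.rp.adj hx hw hwv.symm⟩
  -- double counting
  have h1 : 2 * (us R).card ≤ ∑ v ∈ N, (R v).card := by
    have e1 : ∑ v ∈ N, (R v).card = ∑ x : W, (univ.filter (fun v => x ∈ R v)).card := by
      have e2 : ∀ v : V, (R v).card = ∑ x : W, (if x ∈ R v then 1 else 0) := by
        intro v
        rw [← card_filter, filter_mem_eq_inter, univ_inter]
      have e3 : ∑ v ∈ N, (R v).card = ∑ v : V, (R v).card := by
        refine sum_subset (subset_univ _) ?_
        intro v _ hv
        rw [card_eq_zero, ← not_nonempty_iff_eq_empty]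
        intro hne
        exact hv (mem_filter.2 ⟨mem_univ _, hne⟩)
      rw [e3]
      simp only [card_filter]
      rw [sum_comm]
      exact sum_congr rfl fun v _ => e2 v
    rw [e1]
    calc 2 * (us R).card = ∑ _x ∈ us R, 2 := by rw [sum_const, smul_eq_mul, mul_comm]
      _ ≤ ∑ x ∈ us R, (univ.filter (fun v => x ∈ R v)).card := by
          refine sum_le_sum fun x hx => ?_
          obtain ⟨v, hv⟩ := mem_us.1 hx
          obtain ⟨w, hwv, hw⟩ := hm.two hv
          have : ({v, w} : Finset V) ⊆ univ.filter (fun v => x ∈ R v) := by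
            intro y hy
            rw [mem_insert, mem_singleton] at hy
            refine mem_filter.2 ⟨mem_univ _, ?_⟩
            rcases hy with rfl | rfl
            · exact hv
            · exact hw
          rw [← card_pair hwv.symm]
          exact card_le_card this
      _ ≤ ∑ x : W, (univ.filter (fun v => x ∈ R v)).card :=
          sum_le_sum_of_subset (subset_univ _)
  -- the trees
  have h2 : ∑ v ∈ N, (R v).card ≤
      ∑ v ∈ N, ((F.filter (fun d => S d ∈ R v ∧ T d ∈ R v)).card + 1) :=
    sum_le_sum fun v hv => cn_card (hm.rp.cn v) (mem_filter.1 hv).2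
  have h3 : ∑ v ∈ N, (F.filter (fun d => S d ∈ R v ∧ T d ∈ R v)).card ≤ F.card := by
    rw [← card_biUnion]
    · refine card_le_card ?_
      intro d hd
      obtain ⟨v, _, hv⟩ := mem_biUnion.1 hd
      exact (mem_filter.1 hv).1
    · intro u _ v _ huv
      show Disjoint _ _
      rw [disjoint_left]
      intro d hd hd'
      obtain ⟨hdF, a1, a2⟩ := mem_filter.1 hd
      obtain ⟨_, b1, b2⟩ := mem_filter.1 hd'
      exact huv (hm.one htri hdF (Or.inl ⟨rfl, rfl⟩) a1 a2 b1 b2)
  rw [sum_add_distrib, sum_const, smul_eq_mul, mul_one] at h2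
  have h4 := card_le_card hNV
  omega

/-- the dimension of the cycle space of the host -/
theorem count3 (hm : Mn (Adj src dst) A h S T F R) (hne : (us R).Nonempty) :
    F.card + 1 ≤ Module.finrank (ZMod 2) (ZF S T F) + (us R).card := by
  refine dim W D S T F (us R) hne ?_
  intro d hd
  obtain ⟨v, h1, h2⟩ := hm.edge hd (Or.inl ⟨rfl, rfl⟩)
  exact ⟨mem_us.2 ⟨v, h1⟩, mem_us.2 ⟨v, h2⟩⟩

theorem numT {m n t X f z r k h : ℕ} (h1 : m ≤ X) (h2 : 2 * X ≤ f + n) (h3 : f + 1 ≤ z + X)
    (h4 : z ≤ r + h) (h5 : 1 ≤ r → 12 * (r + 1) ≤ 2 * f) (h6 : 3 * n ≤ 2 * m + t)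
    (h7 : 63 * t ≤ k * (m + t)) (h8 : 189 ≤ m + t) (hk : 6 * h + 7 * k ≤ 137) (hk' : k ≤ 18) :
    False := by
  rcases Nat.eq_zero_or_pos r with hr | hr
  · clear h5
    interval_cases k <;> omega
  · have h9 := h5 hr
    clear h5
    interval_cases k <;> omega

end count

/-! ## The class is closed under contractions -/

/-- after the deletion of at most `k` vertices the graph is the intersection graph of connected
sets of vertices of a host graph which satisfies MacLane's condition with defect `h` -/
def Sg (k h : ℕ) (src dst : E → V) : Prop :=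
  ∃ A : Finset V, A.card ≤ k ∧ ∃ (W D : Type) (_ : Fintype W) (_ : DecidableEq W)
    (_ : Fintype D) (_ : DecidableEq D) (S T : D → W) (F : Finset D) (R : V → Finset W),
    Rp (Adj src dst) A S T F R ∧ Mac h S T F

theorem adj_ctr {src dst : E → V} (u v : V) {a b : V} (hab : a ≠ b) :
    Adj (ctr u v ∘ src) (ctr u v ∘ dst) a b ↔
      ∃ a' b', ctr u v a' = a ∧ ctr u v b' = b ∧ Adj src dst a' b' := by
  constructor
  · rintro ⟨_, e, he⟩
    rcases he with ⟨h1, h2⟩ | ⟨h1, h2⟩
    · exact ⟨src e, dst e, h1, h2, fun h => hab (h1.symm.trans ((congrArg (ctr u v) h).trans h2)),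
        e, Or.inl ⟨rfl, rfl⟩⟩
    · exact ⟨dst e, src e, h2, h1, fun h => hab (h2.symm.trans ((congrArg (ctr u v) h).trans h1)),
        e, Or.inr ⟨rfl, rfl⟩⟩
  · rintro ⟨a', b', rfl, rfl, _, e, he⟩
    exact ⟨hab, e, jn_ctr he _⟩

theorem rp_ctr {src dst : E → V} {e : E} {A A' : Finset V} {S T : D → W} {F : Finset D}
    {R : V → Finset W} (h : Rp (Adj src dst) A S T F R)
    (hne : src e ≠ dst e)
    (hA : ∀ a, a ∉ A' → ∀ a', ctr (src e) (dst e) a' = a → a' ∉ A) :
    Rp (Adj (ctr (src e) (dst e) ∘ src) (ctr (src e) (dst e) ∘ dst)) A' S T F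
      (fun a => if a ∈ A' then ∅ else
        (univ.filter (fun a' => ctr (src e) (dst e) a' = a)).biUnion R) := by
  have hmem : ∀ a x, a ∉ A' → (x ∈ (if a ∈ A' then ∅ else
      (univ.filter (fun a' => ctr (src e) (dst e) a' = a)).biUnion R) ↔
      ∃ a', ctr (src e) (dst e) a' = a ∧ x ∈ R a') := by
    intro a x ha
    rw [if_neg ha, mem_biUnion]
    constructor
    · rintro ⟨a', h1, h2⟩
      exact ⟨a', (mem_filter.1 h1).2, h2⟩
    · rintro ⟨a', h1, h2⟩
      exact ⟨a', mem_filter.2 ⟨mem_univ _, h1⟩, h2⟩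
  refine ⟨fun a => ?_, fun a ha => if_pos ha, fun a b ha hb hab => ?_⟩
  · by_cases ha : a ∈ A'
    · simp only [ha, if_true]
      exact cn_empty _ _ _
    · simp only [ha, if_false]
      by_cases hau : a = src e
      · have h1 : (univ.filter (fun a' => ctr (src e) (dst e) a' = a)).biUnion R =
            R (src e) ∪ R (dst e) := by
          ext x
          rw [mem_biUnion, mem_union]
          constructor
          · rintro ⟨a', h1, h2⟩
            have h3 := (mem_filter.1 h1).2
            by_cases h4 : a' = dst e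
            · right; rw [← h4]; exact h2
            · left
              rw [ctr_ne h4] at h3
              rw [← hau, ← h3]; exact h2
          · rintro (h2 | h2)
            · exact ⟨src e, mem_filter.2 ⟨mem_univ _, by rw [ctr_ne hne, hau]⟩, h2⟩
            · exact ⟨dst e, mem_filter.2 ⟨mem_univ _, by rw [ctr_self, hau]⟩, h2⟩
        rw [h1]
        have h2 : src e ∉ A := hA a ha _ (by rw [ctr_ne hne, hau])
        have h3 : dst e ∉ A := hA a ha _ (by rw [ctr_self, hau])
        obtain ⟨x, hx, hx'⟩ := (h.ad _ _ h2 h3 hne).1 ⟨hne, e, Or.inl ⟨rfl, rfl⟩⟩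
        exact cn_union (h.cn _) (h.cn _) hx hx'
      · by_cases hav : a = dst e
        · have h1 : (univ.filter (fun a' => ctr (src e) (dst e) a' = a)) = ∅ := by
            rw [filter_eq_empty_iff]
            intro a' _ h2
            by_cases h4 : a' = dst e
            · rw [h4, ctr_self, hav] at h2
              exact hne h2
            · rw [ctr_ne h4, hav] at h2
              exact h4 h2
          rw [h1, biUnion_empty]
          exact cn_empty _ _ _
        · have h1 : (univ.filter (fun a' => ctr (src e) (dst e) a' = a)) = {a} := by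
            ext a'
            rw [mem_filter, mem_singleton]
            constructor
            · rintro ⟨_, h2⟩
              by_cases h4 : a' = dst e
              · rw [h4, ctr_self] at h2
                exact absurd h2.symm hau
              · rwa [ctr_ne h4] at h2
            · rintro rfl
              exact ⟨mem_univ _, ctr_ne hav⟩
          rw [h1, singleton_biUnion]
          exact h.cn a
  · rw [adj_ctr _ _ hab]
    constructor
    · rintro ⟨a', b', h1, h2, h3⟩
      obtain ⟨x, hx, hx'⟩ := (h.ad a' b' (hA a ha a' h1) (hA b hb b' h2) h3.1).1 h3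
      exact ⟨x, (hmem a x ha).2 ⟨a', h1, hx⟩, (hmem b x hb).2 ⟨b', h2, hx'⟩⟩
    · rintro ⟨x, hx, hx'⟩
      obtain ⟨a', h1, hx⟩ := (hmem a x ha).1 hx
      obtain ⟨b', h2, hx'⟩ := (hmem b x hb).1 hx'
      have hne' : a' ≠ b' := by
        rintro rfl
        exact hab (h1.symm.trans h2)
      exact ⟨a', b', h1, h2, (h.ad a' b' (hA a ha a' h1) (hA b hb b' h2) hne').2 ⟨x, hx, hx'⟩⟩

theorem sgCC (k h : ℕ) : CC (V := V) (E := E) (Sg k h) := by
  rintro src dst e ⟨A, hA, W, D, i1, i2, i3, i4, S, T, F, R, hR, hM⟩ hne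
  by_cases hs : src e ∈ A ∨ dst e ∈ A
  · refine ⟨insert (src e) (A.erase (dst e)), (ApsMCx.card_le A _ _ hs).trans hA, W, D, i1, i2, i3,
      i4, S, T, F, _, rp_ctr hR hne ?_, hM⟩
    intro a ha a' h1
    have hau : a ≠ src e := fun h => ha (h ▸ mem_insert_self _ _)
    have h2 : a' ≠ dst e := by
      rintro rfl
      rw [ctr_self] at h1
      exact hau h1.symm
    rw [ctr_ne h2] at h1
    rw [h1]
    intro haA
    exact ha (mem_insert_of_mem (mem_erase.2 ⟨fun h => h2 (h1.trans h), haA⟩))
  · push Not at hs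
    refine ⟨A, hA, W, D, i1, i2, i3, i4, S, T, F, _, rp_ctr hR hne ?_, hM⟩
    intro a ha a' h1
    by_cases h2 : a' = dst e
    · rw [h2]; exact hs.2
    · rw [ctr_ne h2] at h1
      rw [h1]; exact ha

/-- **5-flows**: intersection graphs of connected sets in surfaces, and few more vertices -/
theorem stringFlow (hc : St_contract) (hE : Edge62') (k h : ℕ) (hk : 6 * h + 7 * k ≤ 137)
    (hk' : k ≤ 18) (src dst : E → V) (hS : Sg k h src dst) (hb : Br src dst ∅ ∅) :
    FlowOn src dst ∅ ∅ := by
  by_contra hn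
  obtain ⟨s, d, ⟨A, hA, W, D, _, _, _, _, S, T, F, R, hR, hM⟩, hMin⟩ :=
    exists_minC (sgCC k h) src dst hS hb hn
  have hT := threeC hc hMin
  have hP : NoPar s d := fun e e' x y hxy h1 h2 => no_par hc hMin hxy h1 h2
  have hG := girthC hc hMin
  have htri := tri_of_girth hG
  by_cases hno : ∀ e, s e = d e
  · exact hMin.nf (flow_of_loops hno)
  · push Not at hno
    obtain ⟨e0, he0⟩ := hno
    obtain ⟨h63, h6, hne⟩ := Surfx.common hE hG hT hP he0 A (by omega)
    obtain ⟨S, T, F, R, hm⟩ := exists_mn hR hM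
    have e2 := degS V E s d A hT
    have c1 := count1 hP htri hm
    have c2 := count2 htri hm
    obtain ⟨r, c4, c5⟩ := faces hm.mac (face12 hG hP hm)
    have hpos : 0 < (us R).card := by
      have h7 : 0 < (ES s d A).card := by
        by_contra h0
        have h00 : (ES s d A).card = 0 := by omega
        rw [h00, zero_add] at h63 h6
        have := h63.trans (Nat.mul_le_mul_right _ hA)
        have := Nat.mul_le_mul_right (∑ s_1 ∈ A, (Ns s d s_1).card) hk'
        omega
      omega
    have c3 := count3 hm (card_pos.1 hpos)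
    exact numT c1 c2 c3 c4 c5 e2 (h63.trans (Nat.mul_le_mul_right _ hA)) h6 hk hk'

end Pool.Agent.K4H84.ST
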