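import Pool.Agent.TH676.Z.MacCon
import Pool.Agent.TH676.Z.MacDel
import Pool.Agent.TH676.Z.FacesG

set_option autoImplicit false
set_option linter.unusedSectionVars false

/-! # MacLane's condition: identification of two vertices of a face, counting faces -/

namespace Pool.Agent.K4H84.ST

open Finset Pool.Agent.TH676.Z

variable {W D : Type} [Fintype W] [DecidableEq W] [Fintype D] [DecidableEq D]

/-- the family `K` satisfies MacLane's condition with defect `h` -/
structure Fam (h : ℕ) (S T : D → W) (F : Finset D) {ι : Type} [Fintype ι]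
    (K : ι → D → ZMod 2) : Prop where
  mem : ∀ i, K i ∈ ZF S T F
  two : ∀ e, (univ.filter (fun i => K i e ≠ 0)).card ≤ 2
  dim : Module.finrank (ZMod 2) (ZF S T F) ≤
    Module.finrank (ZMod 2) (Submodule.span (ZMod 2) (Set.range K)) + h

theorem Fam.mac {h : ℕ} {S T : D → W} {F : Finset D} {ι : Type} [Fintype ι]
    {K : ι → D → ZMod 2} (hK : Fam h S T F K) : Mac h S T F := by
  classical
  let eq := Fintype.equivFin ι
  refine ⟨Fintype.card ι, fun i => K (eq.symm i), fun i => hK.mem _, fun e => ?_, ?_⟩
  · refine le_trans ?_ (hK.two e)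
    refine card_le_card_of_injOn (fun i => eq.symm i) ?_ (eq.symm.injective.injOn)
    intro i hi
    simpa using hi
  · have : Set.range (fun i => K (eq.symm i)) = Set.range K := by
      ext x
      constructor
      · rintro ⟨i, rfl⟩; exact ⟨_, rfl⟩
      · rintro ⟨i, rfl⟩; exact ⟨eq i, by simp⟩
    rw [this]
    exact hK.dim

theorem fam_of_mac {h : ℕ} {S T : D → W} {F : Finset D} (hM : Mac h S T F) :
    ∃ (k : ℕ) (K : Fin k → D → ZMod 2), Fam h S T F K := by
  obtain ⟨k, K, h1, h2, h3⟩ := hM
  exact ⟨k, K, h1, h2, h3⟩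

/-- the roles of the two ends of the edges -/
theorem zf_swap (S T : D → W) (F : Finset D) : ZF S T F = ZF T S F := by
  have h : ∀ x : D → ZMod 2, ∀ v, bd2 S T x v = bd2 T S x v := by
    intro x v
    unfold bd2
    exact sum_congr rfl fun e _ => add_comm _ _
  ext x
  constructor
  · rintro ⟨h1, h2⟩
    exact ⟨h1, fun v => by rw [← h]; exact h2 v⟩
  · rintro ⟨h1, h2⟩
    exact ⟨h1, fun v => by rw [h]; exact h2 v⟩

theorem mac_swap {h : ℕ} {S T : D → W} {F : Finset D} (hM : Mac h S T F) : Mac h T S F := by
  obtain ⟨k, K, h1, h2, h3⟩ := hM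
  rw [zf_swap] at h3
  exact ⟨k, K, fun i => by rw [zf_swap]; exact h1 i, h2, h3⟩

theorem z2 {a : ZMod 2} (h : a ≠ 0) : a = 1 := by
  revert a; decide

theorem z2_add (a : ZMod 2) : a + a = 0 := by
  revert a; decide

theorem fam_id_aux {h : ℕ} {S T : D → W} {F : Finset D} {ι : Type} [Fintype ι] [DecidableEq ι]
    {K : ι → D → ZMod 2} (hK : Fam h S T F K) (i0 : ι) {p q : W} (hpq : p ≠ q)
    {P : D → ZMod 2} (hP : ∀ e, P e ≠ 0 → K i0 e ≠ 0)
    (hb : ∀ v, bd2 S T P v = (if v = p then 1 else 0) + (if v = q then 1 else 0)) :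
    Fam h (ctr p q ∘ S) (ctr p q ∘ T) F
      (fun o : Option ι => match o with
        | none => P
        | some i => if i = i0 then K i0 + P else K i) := by
  have hbp : bd2 S T P p = 1 := by rw [hb, if_pos rfl, if_neg hpq, add_zero]
  have hbq : bd2 S T P q = 1 := by rw [hb, if_pos rfl, if_neg hpq.symm, zero_add]
  have hPF : ∀ e, e ∉ F → P e = 0 := by
    intro e he
    by_contra h0
    exact hP e h0 ((hK.mem i0).1 e he)
  have hPZ : P ∈ ZF (ctr p q ∘ S) (ctr p q ∘ T) F := by
    refine ⟨hPF, fun v => ?_⟩
    rw [MacConx.bd2_ctr _ _ _ _ hpq]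
    split_ifs with h1 h2
    · rfl
    · rw [hbp, hbq]; decide
    · rw [hb, if_neg h2, if_neg h1, add_zero]
  have hZ : ZF S T F ≤ ZF (ctr p q ∘ S) (ctr p q ∘ T) F := by
    rintro x ⟨h1, h2⟩
    refine ⟨h1, fun v => ?_⟩
    rw [MacConx.bd2_ctr _ _ _ _ hpq, h2, h2, h2]
    simp
  refine ⟨?_, ?_, ?_⟩
  · rintro (_ | i)
    · exact hPZ
    · by_cases hi : i = i0
      · simp only [hi, if_true]
        exact Submodule.add_mem _ (hZ (hK.mem i0)) hPZ
      · simp only [hi, if_false]
        exact hZ (hK.mem i)
  · intro e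
    refine le_trans ?_ (hK.two e)
    refine card_le_card_of_injOn (fun o : Option ι => o.getD i0) ?_ ?_
    · rintro (_ | i) ho
      · simp only [coe_filter, mem_univ, true_and, Set.mem_setOf_eq] at ho ⊢
        exact hP e ho
      · simp only [coe_filter, mem_univ, true_and, Set.mem_setOf_eq] at ho ⊢
        simp only [Option.getD_some]
        by_cases hi : i = i0
        · rw [if_pos hi, Pi.add_apply] at ho
          subst hi
          intro h0
          rw [h0, zero_add] at ho
          exact hP e ho h0
        · rwa [if_neg hi] at ho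
    · have key : ∀ i, (if i = i0 then K i0 + P else K i) e ≠ 0 → P e ≠ 0 → i ≠ i0 := by
        rintro i h1 h2 rfl
        rw [if_pos rfl, Pi.add_apply, z2 h2, z2 (hP e h2)] at h1
        exact h1 (z2_add 1)
      rintro (_ | i) ho (_ | j) hj hij
      · rfl
      · simp only [coe_filter, mem_univ, true_and, Set.mem_setOf_eq] at ho hj
        simp only [Option.getD_none, Option.getD_some] at hij
        exact absurd hij.symm (key j hj ho)
      · simp only [coe_filter, mem_univ, true_and, Set.mem_setOf_eq] at ho hj
        simp only [Option.getD_none, Option.getD_some] at hij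
        exact absurd hij (key i ho hj)
      · simp only [Option.getD_some] at hij
        rw [hij]
  · set K' : Option ι → D → ZMod 2 := (fun o : Option ι => match o with
        | none => P
        | some i => if i = i0 then K i0 + P else K i) with hK'
    have hPs : P ∈ Submodule.span (ZMod 2) (Set.range K') := Submodule.subset_span ⟨none, rfl⟩
    have hle : Submodule.span (ZMod 2) (Set.range K) ≤ Submodule.span (ZMod 2) (Set.range K') := by
      rw [Submodule.span_le]
      rintro _ ⟨i, rfl⟩
      have h1 : K' (some i) ∈ Submodule.span (ZMod 2) (Set.range K') :=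
        Submodule.subset_span ⟨some i, rfl⟩
      by_cases hi : i = i0
      · have h2 : K i = K' (some i) + P := by
          rw [hK']
          simp only [hi, if_true]
          funext e
          rw [Pi.add_apply, Pi.add_apply, add_assoc, z2_add, add_zero]
        rw [SetLike.mem_coe, h2]
        exact Submodule.add_mem _ h1 hPs
      · have h2 : K i = K' (some i) := by
          rw [hK']
          simp only [hi, if_false]
        rw [SetLike.mem_coe, h2]
        exact h1
    have hKZ : Submodule.span (ZMod 2) (Set.range K) ≤ ZF S T F := by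
      rw [Submodule.span_le]
      rintro _ ⟨i, rfl⟩
      exact hK.mem i
    have hPn : P ∉ ZF S T F := by
      intro h1
      rw [h1.2 p] at hbp
      exact zero_ne_one hbp
    have hlt : Submodule.span (ZMod 2) (Set.range K) < Submodule.span (ZMod 2) (Set.range K') :=
      lt_of_le_of_ne hle fun heq => hPn (hKZ (heq ▸ hPs))
    have h1 := Submodule.finrank_lt_finrank_of_lt hlt
    have h2 : ZF (ctr p q ∘ S) (ctr p q ∘ T) F ≤ ZF S T F ⊔ Submodule.span (ZMod 2) {P} := by
      intro x hx
      have hx1 : ∀ v, v ≠ p → v ≠ q → bd2 S T x v = 0 := by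
        intro v h1 h2
        have := hx.2 v
        rwa [MacConx.bd2_ctr _ _ _ _ hpq, if_neg h2, if_neg h1] at this
      have hx2 : bd2 S T x p + bd2 S T x q = 0 := by
        have := hx.2 p
        rwa [MacConx.bd2_ctr _ _ _ _ hpq, if_neg hpq, if_pos rfl] at this
      by_cases hxq : bd2 S T x q = 0
      · refine Submodule.mem_sup_left ⟨hx.1, fun v => ?_⟩
        rw [hxq, add_zero] at hx2
        by_cases h3 : v = p
        · rw [h3]; exact hx2
        · by_cases h4 : v = q
          · rw [h4]; exact hxq
          · exact hx1 v h3 h4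
      · have hxq1 := z2 hxq
        have hxp1 : bd2 S T x p = 1 := by
          rw [hxq1] at hx2
          have : ∀ a : ZMod 2, a + 1 = 0 → a = 1 := by decide
          exact this _ hx2
        have h5 : x = (x + P) + P := by
          funext e
          rw [Pi.add_apply, Pi.add_apply, add_assoc, z2_add, add_zero]
        rw [h5]
        refine Submodule.add_mem _ (Submodule.mem_sup_left ⟨fun e he => ?_, fun v => ?_⟩)
          (Submodule.mem_sup_right (Submodule.mem_span_singleton_self _))
        · rw [Pi.add_apply, hx.1 e he, hPF e he, add_zero]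
        · rw [MacConx.bd2_add]
          by_cases h3 : v = p
          · rw [h3, hxp1, hbp]; decide
          · by_cases h4 : v = q
            · rw [h4, hxq1, hbq]; decide
            · rw [hx1 v h3 h4, hb, if_neg h3, if_neg h4, add_zero, add_zero]
    have h3 := Submodule.finrank_mono h2
    have h4 := Submodule.finrank_add_le_finrank_add_finrank (ZF S T F)
      (Submodule.span (ZMod 2) {P})
    have h5 : Module.finrank (ZMod 2) (Submodule.span (ZMod 2) {P}) ≤ 1 := by
      have := finrank_span_le_card (R := ZMod 2) ({P} : Set (D → ZMod 2))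
      simpa using this
    have h6 := hK.dim
    omega

/-- identification of two vertices of a face -/
theorem mac_id {h : ℕ} {S T : D → W} {F : Finset D} {ι : Type} [Fintype ι]
    {K : ι → D → ZMod 2} (hK : Fam h S T F K) (i0 : ι) {p q : W} (hpq : p ≠ q)
    {P : D → ZMod 2} (hP : ∀ e, P e ≠ 0 → K i0 e ≠ 0)
    (hb : ∀ v, bd2 S T P v = (if v = p then 1 else 0) + (if v = q then 1 else 0)) :
    Mac h (ctr p q ∘ S) (ctr p q ∘ T) F := by
  classical
  exact (fam_id_aux hK i0 hpq hP hb).mac

/-- counting the faces when all families have long members -/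
theorem faces {h g : ℕ} {S T : D → W} {F : Finset D} (hM : Mac h S T F)
    (hg : ∀ (ι : Type) [Fintype ι] (L : ι → D → ZMod 2), Fam h S T F L → ∀ i, L i ≠ 0 →
      g ≤ (univ.filter (fun e => L i e ≠ 0)).card) :
    ∃ r, Module.finrank (ZMod 2) (ZF S T F) ≤ r + h ∧ (1 ≤ r → g * (r + 1) ≤ 2 * F.card) := by
  classical
  obtain ⟨k, K, hK⟩ := fam_of_mac hM
  obtain ⟨κ, a, ha, hspan, hli⟩ := exists_linearIndependent' (ZMod 2) K
  haveI : Finite κ := Finite.of_injective a ha
  haveI := Fintype.ofFinite κ
  have hcard : Module.finrank (ZMod 2) (Submodule.span (ZMod 2) (Set.range K)) =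
      Fintype.card κ := by
    rw [← hspan]
    exact finrank_span_eq_card hli
  refine ⟨Fintype.card κ, by rw [← hcard]; exact hK.dim, fun hr => ?_⟩
  haveI : Nonempty κ := Fintype.card_pos_iff.mp hr
  set Z : D → ZMod 2 := ∑ j, K (a j) with hZ
  have hZe : ∀ e, Z e = ∑ j, K (a j) e := fun e => by rw [hZ, Finset.sum_apply]
  have hZZ : Z ∈ ZF S T F := Submodule.sum_mem _ fun j _ => hK.mem (a j)
  have hZ0 : Z ≠ 0 := by
    intro h0
    have h1 := Fintype.linearIndependent_iff.mp hli (fun _ => 1) (by
      simpa [Function.comp] using h0)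
    obtain ⟨j⟩ := ‹Nonempty κ›
    exact one_ne_zero (h1 j)
  have hc : ∀ e, (univ.filter (fun j : κ => K (a j) e ≠ 0)).card ≤ 2 := by
    intro e
    refine le_trans ?_ (hK.two e)
    refine Finset.card_le_card_of_injOn a ?_ ha.injOn
    intro j hj
    simpa using hj
  -- the completed family
  have hfam : Fam h S T F (fun o : Option κ => match o with
      | none => Z
      | some j => K (a j)) := by
    refine ⟨?_, ?_, ?_⟩
    · rintro (_ | j)
      · exact hZZ
      · exact hK.mem _
    · intro e
      have h1 := FacesGx.key (fun j => K (a j) e) (hc e)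
      rw [← hZe e] at h1
      refine le_trans (le_of_eq ?_) h1
      rw [Finset.card_filter, Fintype.sum_option, add_comm, Finset.card_filter]
    · refine hK.dim.trans (Nat.add_le_add_right ?_ h)
      rw [← hspan]
      refine Submodule.finrank_mono (Submodule.span_mono ?_)
      rintro _ ⟨j, rfl⟩
      exact ⟨some j, rfl⟩
  have hlow1 : ∀ j : κ, g ≤ (univ.filter (fun e => K (a j) e ≠ 0)).card :=
    fun j => hg _ _ hfam (some j) (hli.ne_zero j)
  have hlow2 : g ≤ (univ.filter (fun e => Z e ≠ 0)).card := hg _ _ hfam none hZ0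
  have hsum1 : Fintype.card κ * g ≤ ∑ j : κ, (univ.filter (fun e => K (a j) e ≠ 0)).card := by
    have := Finset.card_nsmul_le_sum (univ : Finset κ)
      (fun j => (univ.filter (fun e => K (a j) e ≠ 0)).card) g (fun j _ => hlow1 j)
    simpa using this
  have hswap : ∑ j : κ, (univ.filter (fun e => K (a j) e ≠ 0)).card =
      ∑ e : D, (univ.filter (fun j : κ => K (a j) e ≠ 0)).card := by
    simp only [Finset.card_filter]
    exact Finset.sum_comm
  have hup : ∀ e : D, (univ.filter (fun j : κ => K (a j) e ≠ 0)).card +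
      (if Z e ≠ 0 then 1 else 0) ≤ if e ∈ F then 2 else 0 := by
    intro e
    by_cases he : e ∈ F
    · rw [if_pos he]
      have := FacesGx.key (fun j => K (a j) e) (hc e)
      rw [← hZe e] at this
      exact this
    · rw [if_neg he]
      have h0 : ∀ i, K i e = 0 := fun i => (hK.mem i).1 e he
      have hZe0 : Z e = 0 := hZZ.1 e he
      simp [h0, hZe0]
  have htot : ∑ e : D, ((univ.filter (fun j : κ => K (a j) e ≠ 0)).card +
      (if Z e ≠ 0 then 1 else 0)) ≤ ∑ e : D, (if e ∈ F then 2 else 0) :=
    Finset.sum_le_sum fun e _ => hup e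
  rw [Finset.sum_add_distrib, ← hswap] at htot
  have hZc : ∑ e : D, (if Z e ≠ 0 then 1 else 0) = (univ.filter (fun e => Z e ≠ 0)).card := by
    rw [Finset.card_filter]
  have hFc : ∑ e : D, (if e ∈ F then 2 else 0) = 2 * F.card := by
    rw [← Finset.sum_filter]
    simp [Finset.filter_mem_eq_inter, mul_comm]
  rw [hZc, hFc] at htot
  calc g * (Fintype.card κ + 1) = Fintype.card κ * g + g := by ring
    _ ≤ _ := Nat.add_le_add hsum1 hlow2
    _ ≤ _ := htot

end Pool.Agent.K4H84.ST
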