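import Pool.Agent.K4H84.ST.Mac
import Pool.Agent.K4H84.ST.Circ

set_option autoImplicit false
set_option linter.unusedSectionVars false

/-! # Representations by connected sets of vertices of a host graph; minimal hosts -/

namespace Pool.Agent.K4H84.ST

open Finset Pool.Agent.TH676.Z

section cn

variable {W D : Type} [Fintype W] [DecidableEq W] [Fintype D] [DecidableEq D]

/-- the set `R` of vertices is connected by the edges in `F` (or empty) -/
def Cn (S T : D → W) (F : Finset D) (R : Finset W) : Prop :=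
  ∀ Y : Finset W, Y ⊆ R → Y.Nonempty → Y ≠ R →
    ∃ d ∈ F, ∃ a b, Jn S T d a b ∧ a ∈ Y ∧ b ∈ R ∧ b ∉ Y

theorem cn_empty (S T : D → W) (F : Finset D) : Cn S T F ∅ := by
  intro Y h1 h2 h3
  exact absurd (subset_empty.1 h1) h3

theorem ctr_self (x y : W) : ctr y x x = y := by simp [ctr]

theorem ctr_ne {x y z : W} (h : z ≠ x) : ctr y x z = z := by simp [ctr, h]

theorem jn_ctr {S T : D → W} {d : D} {a b : W} (h : Jn S T d a b) (c : W → W) :
    Jn (c ∘ S) (c ∘ T) d (c a) (c b) := by
  rcases h with ⟨h1, h2⟩ | ⟨h1, h2⟩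
  · exact Or.inl ⟨congrArg c h1, congrArg c h2⟩
  · exact Or.inr ⟨congrArg c h1, congrArg c h2⟩

theorem cn_merge {S T : D → W} {F : Finset D} {R : Finset W} {x y : W} (hxy : x ≠ y)
    (h : x ∈ R → y ∈ R) (hc : Cn S T F R) :
    Cn (ctr y x ∘ S) (ctr y x ∘ T) F (R.erase x) := by
  intro Y hY hne hneq
  have hxY : x ∉ Y := fun hx => absurd (hY hx) (notMem_erase _ _)
  have hYR : Y ⊆ R := hY.trans (erase_subset _ _)
  by_cases hy : y ∈ Y ∧ x ∈ R
  · obtain ⟨d, hd, a, b, hj, ha, hb, hb'⟩ := hc (insert x Y)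
      (insert_subset hy.2 hYR) (insert_nonempty _ _) (by
        intro heq
        apply hneq
        rw [← heq, erase_insert hxY])
    have hbx : b ≠ x := fun h => hb' (h ▸ mem_insert_self _ _)
    have hbY : b ∉ Y := fun h => hb' (mem_insert_of_mem h)
    refine ⟨d, hd, _, _, jn_ctr hj (ctr y x), ?_, ?_, ?_⟩
    · rcases mem_insert.1 ha with h1 | h1
      · rw [h1, ctr_self]; exact hy.1
      · have hax : a ≠ x := by
          rintro rfl
          exact hxY h1
        rw [ctr_ne hax]; exact h1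
    · rw [ctr_ne hbx]; exact mem_erase.2 ⟨hbx, hb⟩
    · rw [ctr_ne hbx]; exact hbY
  · obtain ⟨d, hd, a, b, hj, ha, hb, hb'⟩ := hc Y hYR hne (by
      intro heq
      apply hneq
      rw [← heq, erase_eq_of_notMem hxY])
    have hax : a ≠ x := fun h => hxY (h ▸ ha)
    refine ⟨d, hd, _, _, jn_ctr hj (ctr y x), ?_, ?_, ?_⟩
    · rw [ctr_ne hax]; exact ha
    · by_cases hbx : b = x
      · rw [hbx, ctr_self]
        exact mem_erase.2 ⟨hxy.symm, h (hbx ▸ hb)⟩
      · rw [ctr_ne hbx]; exact mem_erase.2 ⟨hbx, hb⟩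
    · by_cases hbx : b = x
      · rw [hbx, ctr_self]
        exact fun hyY => hy ⟨hyY, hbx ▸ hb⟩
      · rw [ctr_ne hbx]; exact hb'

theorem cn_del {S T : D → W} {F : Finset D} {R : Finset W} {d : D}
    (h : ∀ a b, Jn S T d a b → a ∈ R → b ∈ R → a = b) (hc : Cn S T F R) :
    Cn S T (F.erase d) R := by
  intro Y hY hne hneq
  obtain ⟨d', hd', a, b, hj, ha, hb, hb'⟩ := hc Y hY hne hneq
  refine ⟨d', mem_erase.2 ⟨?_, hd'⟩, a, b, hj, ha, hb, hb'⟩
  rintro rfl
  have := h a b hj (hY ha) hb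
  exact hb' (this ▸ ha)

theorem cn_union {S T : D → W} {F : Finset D} {R R' : Finset W} (h1 : Cn S T F R)
    (h2 : Cn S T F R') {x : W} (hx : x ∈ R) (hx' : x ∈ R') : Cn S T F (R ∪ R') := by
  intro Y hY hne hneq
  by_contra hcon
  push Not at hcon
  -- `Y` contains `R` or is disjoint from it
  have key : ∀ Q, Cn S T F Q → Q ⊆ R ∪ R' → Q ⊆ Y ∨ Disjoint Y Q := by
    intro Q hQ hQs
    by_cases h3 : (Y ∩ Q).Nonempty
    · left
      by_contra h4
      obtain ⟨d, hd, a, b, hj, ha, hb, hb'⟩ := hQ (Y ∩ Q) inter_subset_right h3 (by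
        intro h5
        exact h4 (inter_eq_right.1 h5))
      have h6 := hcon d hd a b hj (mem_inter.1 ha).1 (hQs hb)
      exact hb' (mem_inter.2 ⟨h6, hb⟩)
    · right
      rw [disjoint_iff_inter_eq_empty]
      exact not_nonempty_iff_eq_empty.1 h3
  have k1 := key R h1 subset_union_left
  have k2 := key R' h2 subset_union_right
  rcases k1 with k1 | k1 <;> rcases k2 with k2 | k2
  · exact hneq (subset_antisymm hY (union_subset k1 k2))
  · exact disjoint_left.1 k2 (k1 hx) hx'
  · exact disjoint_left.1 k1 (k2 hx') hx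
  · obtain ⟨y, hy⟩ := hne
    rcases mem_union.1 (hY hy) with h | h
    · exact disjoint_left.1 k1 hy h
    · exact disjoint_left.1 k2 hy h

/-- a connected set has at least as many edges as a tree -/
theorem cn_card {S T : D → W} {F : Finset D} {R : Finset W} (hc : Cn S T F R)
    (hne : R.Nonempty) :
    R.card ≤ (F.filter (fun d => S d ∈ R ∧ T d ∈ R)).card + 1 := by
  obtain ⟨x0, hx0⟩ := hne
  have key : ∀ m, 1 ≤ m → m ≤ R.card → ∃ Y ⊆ R, Y.card = m ∧
      m ≤ (F.filter (fun d => S d ∈ Y ∧ T d ∈ Y)).card + 1 := by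
    intro m
    induction m with
    | zero => intro h; omega
    | succ m ih =>
      intro _ hm
      rcases Nat.eq_zero_or_pos m with rfl | hm0
      · exact ⟨{x0}, singleton_subset_iff.2 hx0, card_singleton _, by omega⟩
      · obtain ⟨Y, hY, hYc, hYm⟩ := ih hm0 (by omega)
        obtain ⟨d, hd, a, b, hj, ha, hb, hb'⟩ := hc Y hY (card_pos.1 (by omega)) (by
          intro h; rw [h] at hYc; omega)
        refine ⟨insert b Y, insert_subset hb hY, by rw [card_insert_of_notMem hb', hYc], ?_⟩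
        have hdn : d ∉ F.filter (fun d => S d ∈ Y ∧ T d ∈ Y) := by
          intro h
          have h1 := (mem_filter.1 h).2
          rcases hj with ⟨h2, h3⟩ | ⟨h2, h3⟩
          · exact hb' (h3 ▸ h1.2)
          · exact hb' (h2 ▸ h1.1)
        have hsub : insert d (F.filter (fun d => S d ∈ Y ∧ T d ∈ Y)) ⊆
            F.filter (fun d => S d ∈ insert b Y ∧ T d ∈ insert b Y) := by
          intro d' hd'
          rcases mem_insert.1 hd' with rfl | h
          · refine mem_filter.2 ⟨hd, ?_⟩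
            rcases hj with ⟨h2, h3⟩ | ⟨h2, h3⟩
            · exact ⟨h2 ▸ mem_insert_of_mem ha, h3 ▸ mem_insert_self _ _⟩
            · exact ⟨h2 ▸ mem_insert_self _ _, h3 ▸ mem_insert_of_mem ha⟩
          · obtain ⟨h1, h2, h3⟩ := mem_filter.1 h
            exact mem_filter.2 ⟨h1, mem_insert_of_mem h2, mem_insert_of_mem h3⟩
        have h4 := card_le_card hsub
        rw [card_insert_of_notMem hdn] at h4
        omega
  obtain ⟨Y, hY, hYc, hYm⟩ := key R.card (card_pos.2 ⟨x0, hx0⟩) le_rfl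
  have : Y = R := eq_of_subset_of_card_le hY (by omega)
  rw [this] at hYm
  exact hYm

/-- parity of an element of the cycle space on a cut -/
theorem zf_cut {S T : D → W} {F : Finset D} {z : D → ZMod 2} (hz : z ∈ ZF S T F)
    (Y : Finset W) : ∑ d ∈ univ.filter (fun d => ¬ (S d ∈ Y ↔ T d ∈ Y)), z d = 0 := by
  have h1 : ∑ v ∈ Y, bd2 S T z v = 0 := sum_eq_zero fun v _ => hz.2 v
  unfold bd2 at h1
  rw [sum_comm] at h1
  rw [← h1, sum_filter]
  refine sum_congr rfl fun d _ => ?_
  rw [sum_add_distrib, sum_ite_eq, sum_ite_eq]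
  have h2 : z d + z d = 0 := by
    generalize z d = a
    revert a
    decide
  by_cases h3 : S d ∈ Y <;> by_cases h4 : T d ∈ Y <;> simp [h3, h4, h2]

theorem cn_del_cyc {S T : D → W} {F : Finset D} {R : Finset W} {z : D → ZMod 2}
    (hz : z ∈ ZF S T F) (hR : ∀ d, z d ≠ 0 → S d ∈ R ∧ T d ∈ R) {d : D} (hd : z d ≠ 0)
    (hc : Cn S T F R) : Cn S T (F.erase d) R := by
  intro Y hY hne hneq
  obtain ⟨d', hd', a, b, hj, ha, hb, hb'⟩ := hc Y hY hne hneq
  by_cases hdd : d' = d
  · -- another edge of `z` in the cut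
    subst hdd
    have hmem : d' ∈ univ.filter (fun d => ¬ (S d ∈ Y ↔ T d ∈ Y)) := by
      refine mem_filter.2 ⟨mem_univ _, ?_⟩
      rcases hj with ⟨h2, h3⟩ | ⟨h2, h3⟩
      · rw [h2, h3]; exact fun h => hb' (h.1 ha)
      · rw [h2, h3]; exact fun h => hb' (h.2 ha)
    have h1 := zf_cut hz Y
    rw [← add_sum_erase _ _ hmem] at h1
    have h2 : ∑ d ∈ (univ.filter (fun d => ¬ (S d ∈ Y ↔ T d ∈ Y))).erase d', z d ≠ 0 := by
      intro h0
      rw [h0, add_zero] at h1
      exact hd h1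
    obtain ⟨e, he, hze⟩ := exists_ne_zero_of_sum_ne_zero h2
    obtain ⟨hed, he1⟩ := mem_erase.1 he
    have he2 := (mem_filter.1 he1).2
    obtain ⟨hS, hT⟩ := hR e hze
    have heF : e ∈ F := by
      by_contra h
      exact hze (hz.1 e h)
    by_cases hSY : S e ∈ Y
    · refine ⟨e, mem_erase.2 ⟨hed, heF⟩, S e, T e, Or.inl ⟨rfl, rfl⟩, hSY, hT, fun h => ?_⟩
      exact he2 ⟨fun _ => h, fun _ => hSY⟩
    · refine ⟨e, mem_erase.2 ⟨hed, heF⟩, T e, S e, Or.inr ⟨rfl, rfl⟩, ?_, hS, hSY⟩
      by_contra h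
      exact he2 ⟨fun h' => absurd h' hSY, fun h' => absurd h' h⟩
  · exact ⟨d', mem_erase.2 ⟨hdd, hd'⟩, a, b, hj, ha, hb, hb'⟩

end cn

section rp

variable {V : Type} [Fintype V] [DecidableEq V]
variable {W D : Type} [Fintype W] [DecidableEq W] [Fintype D] [DecidableEq D]

/-- the graph `Ad` without the vertices in `A` is the intersection graph of the connected sets
`R v` of vertices of the host graph -/
structure Rp (Ad : V → V → Prop) (A : Finset V) (S T : D → W) (F : Finset D)
    (R : V → Finset W) : Prop where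
  cn : ∀ v, Cn S T F (R v)
  out : ∀ v ∈ A, R v = ∅
  ad : ∀ u v, u ∉ A → v ∉ A → u ≠ v → (Ad u v ↔ ∃ x, x ∈ R u ∧ x ∈ R v)

theorem Rp.notA {Ad : V → V → Prop} {A : Finset V} {S T : D → W} {F : Finset D}
    {R : V → Finset W} (h : Rp Ad A S T F R) {v : V} {x : W} (hx : x ∈ R v) : v ∉ A := by
  intro hv
  rw [h.out v hv] at hx
  exact notMem_empty _ hx

theorem Rp.adj {Ad : V → V → Prop} {A : Finset V} {S T : D → W} {F : Finset D}
    {R : V → Finset W} (h : Rp Ad A S T F R) {u v : V} {x : W} (hx : x ∈ R u) (hx' : x ∈ R v)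
    (huv : u ≠ v) : Ad u v :=
  (h.ad u v (h.notA hx) (h.notA hx') huv).2 ⟨x, hx, hx'⟩

/-- the vertices of the host which are used -/
def us (R : V → Finset W) : Finset W := univ.biUnion R

theorem mem_us {R : V → Finset W} {x : W} : x ∈ us R ↔ ∃ v, x ∈ R v := by
  simp [us]

theorem rp_merge {Ad : V → V → Prop} {A : Finset V} {S T : D → W} {F : Finset D}
    {R : V → Finset W} (h : Rp Ad A S T F R) {x y : W} (hxy : x ≠ y)
    (hl : ∀ u, x ∈ R u → y ∈ R u) :
    Rp Ad A (ctr y x ∘ S) (ctr y x ∘ T) F (fun u => (R u).erase x) := by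
  refine ⟨fun v => cn_merge hxy (hl v) (h.cn v), fun v hv => ?_, fun u v hu hv huv => ?_⟩
  · rw [h.out v hv, erase_empty]
  · rw [h.ad u v hu hv huv]
    constructor
    · rintro ⟨z, hz1, hz2⟩
      by_cases hzx : z = x
      · subst hzx
        exact ⟨y, mem_erase.2 ⟨hxy.symm, hl u hz1⟩, mem_erase.2 ⟨hxy.symm, hl v hz2⟩⟩
      · exact ⟨z, mem_erase.2 ⟨hzx, hz1⟩, mem_erase.2 ⟨hzx, hz2⟩⟩
    · rintro ⟨z, hz1, hz2⟩
      exact ⟨z, mem_of_mem_erase hz1, mem_of_mem_erase hz2⟩

theorem us_merge {R : V → Finset W} {x : W} : us (fun u => (R u).erase x) = (us R).erase x := by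
  ext z
  rw [mem_us, mem_erase, mem_us]
  constructor
  · rintro ⟨v, hv⟩
    exact ⟨(mem_erase.1 hv).1, v, (mem_erase.1 hv).2⟩
  · rintro ⟨h1, v, hv⟩
    exact ⟨v, mem_erase.2 ⟨h1, hv⟩⟩

theorem rp_del {Ad : V → V → Prop} {A : Finset V} {S T : D → W} {F F' : Finset D}
    {R : V → Finset W} (h : Rp Ad A S T F R) (hc : ∀ v, Cn S T F' (R v)) :
    Rp Ad A S T F' R := ⟨hc, h.out, h.ad⟩

/-- a minimal host -/
structure Mn (Ad : V → V → Prop) (A : Finset V) (h : ℕ) (S T : D → W) (F : Finset D)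
    (R : V → Finset W) : Prop where
  rp : Rp Ad A S T F R
  mac : Mac h S T F
  min : ∀ (S' T' : D → W) (F' : Finset D) (R' : V → Finset W), Rp Ad A S' T' F' R' →
    Mac h S' T' F' → (us R).card + F.card ≤ (us R').card + F'.card

theorem exists_mn {Ad : V → V → Prop} {A : Finset V} {h : ℕ} {S T : D → W} {F : Finset D}
    {R : V → Finset W} (h1 : Rp Ad A S T F R) (h2 : Mac h S T F) :
    ∃ (S T : D → W) (F : Finset D) (R : V → Finset W), Mn Ad A h S T F R := by
  classical
  have hex : ∃ m, ∃ (S T : D → W) (F : Finset D) (R : V → Finset W), Rp Ad A S T F R ∧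
      Mac h S T F ∧ (us R).card + F.card = m := ⟨_, S, T, F, R, h1, h2, rfl⟩
  obtain ⟨S0, T0, F0, R0, a1, a2, a3⟩ := Nat.find_spec hex
  refine ⟨S0, T0, F0, R0, a1, a2, fun S' T' F' R' b1 b2 => ?_⟩
  rw [a3]
  exact Nat.find_min' hex ⟨S', T', F', R', b1, b2, rfl⟩

namespace Mn

variable {Ad : V → V → Prop} {A : Finset V} {h : ℕ} {S T : D → W} {F : Finset D}
  {R : V → Finset W}

theorem del (hm : Mn Ad A h S T F R) {d : D} (hd : d ∈ F)
    (hc : ∀ v, Cn S T (F.erase d) (R v)) : False := by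
  have h1 := hm.min S T (F.erase d) R (rp_del hm.rp hc) (macDel W D S T F h d hm.mac)
  rw [card_erase_of_mem hd] at h1
  have := card_pos.2 ⟨d, hd⟩
  omega

/-- no merging of used vertices -/
theorem merge (hm : Mn Ad A h S T F R) {x y : W} (hxy : x ≠ y) (hx : x ∈ us R)
    (hl : ∀ u, x ∈ R u → y ∈ R u) (hM : Mac h (ctr y x ∘ S) (ctr y x ∘ T) F) : False := by
  have h1 := hm.min _ _ F _ (rp_merge hm.rp hxy hl) hM
  rw [us_merge, card_erase_of_mem hx] at h1
  have := card_pos.2 ⟨x, hx⟩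
  omega

theorem loop (hm : Mn Ad A h S T F R) {d : D} (hd : d ∈ F) {a b : W} (hj : Jn S T d a b) :
    a ≠ b := by
  rintro rfl
  refine hm.del hd fun v => cn_del ?_ (hm.rp.cn v)
  intro a' b' hj' _ _
  rcases hj with ⟨h1, h2⟩ | ⟨h1, h2⟩ <;> rcases hj' with ⟨h3, h4⟩ | ⟨h3, h4⟩ <;>
    rw [← h3, ← h4, h1, h2]

theorem edge (hm : Mn Ad A h S T F R) {d : D} (hd : d ∈ F) {a b : W} (hj : Jn S T d a b) :
    ∃ v, a ∈ R v ∧ b ∈ R v := by
  by_contra hcon
  push Not at hcon
  refine hm.del hd fun v => cn_del ?_ (hm.rp.cn v)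
  intro a' b' hj' ha' hb'
  exfalso
  rcases hj with ⟨h1, h2⟩ | ⟨h1, h2⟩ <;> rcases hj' with ⟨h3, h4⟩ | ⟨h3, h4⟩
  · rw [← h3, h1] at ha'
    rw [← h4, h2] at hb'
    exact hcon v ha' hb'
  · rw [← h4, h2] at ha'
    rw [← h3, h1] at hb'
    exact hcon v hb' ha'
  · rw [← h3, h1] at ha'
    rw [← h4, h2] at hb'
    exact hcon v hb' ha'
  · rw [← h4, h2] at ha'
    rw [← h3, h1] at hb'
    exact hcon v ha' hb'

theorem mac_con {S T : D → W} {F : Finset D} {d : D} {x y : W} (hM : Mac h S T F)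
    (hd : d ∈ F) (hj : Jn S T d x y) (hxy : x ≠ y) :
    Mac h (ctr y x ∘ S) (ctr y x ∘ T) (F.erase d) := by
  have key : ∀ (S T : D → W), Mac h S T F → S d = y → T d = x →
      Mac h (ctr y x ∘ S) (ctr y x ∘ T) (F.erase d) := by
    rintro S T hM rfl rfl
    obtain ⟨k, K, h1, h2, h3⟩ := hM
    have hne : S d ≠ T d := hxy.symm
    have hmap : ZF (ctr (S d) (T d) ∘ S) (ctr (S d) (T d) ∘ T) (F.erase d) =
        (ZF S T F).map (MacConx.rho d) := by
      ext y
      rw [Submodule.mem_map]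
      constructor
      · intro hy
        exact MacConx.surj hd hne hy
      · rintro ⟨x, hx, rfl⟩
        exact MacConx.map_mem hne hx
    refine ⟨k, fun i => MacConx.rho d (K i), fun i => MacConx.map_mem hne (h1 i),
      fun e => ?_, ?_⟩
    · refine (card_le_card ?_).trans (h2 e)
      intro i hi
      rw [mem_filter] at hi ⊢
      refine ⟨hi.1, fun h0 => hi.2 ?_⟩
      show MacConx.rho d (K i) e = 0
      rw [MacConx.rho_apply, h0, ite_self]
    · have e1 : Module.finrank (ZMod 2)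
          (ZF (ctr (S d) (T d) ∘ S) (ctr (S d) (T d) ∘ T) (F.erase d)) ≤
          Module.finrank (ZMod 2) (ZF S T F) := by
        rw [hmap]
        exact Submodule.finrank_map_le _ _
      have e2 : Submodule.span (ZMod 2) (Set.range fun i => MacConx.rho d (K i)) =
          (Submodule.span (ZMod 2) (Set.range K)).map (MacConx.rho d) := by
        rw [Submodule.map_span]
        congr 1
        rw [← Set.range_comp]
        rfl
      have e3 : Submodule.span (ZMod 2) (Set.range K) ≤ ZF S T F := by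
        rw [Submodule.span_le]
        rintro _ ⟨i, rfl⟩
        exact h1 i
      have e4 : Function.Injective
          ((MacConx.rho d).domRestrict (Submodule.span (ZMod 2) (Set.range K))) := by
        rw [← LinearMap.ker_eq_bot, LinearMap.ker_eq_bot']
        rintro ⟨x, hx⟩ h0
        have h5 : MacConx.rho d x = 0 := h0
        exact Subtype.ext (MacConx.inj hne (e3 hx) h5)
      have e6 := LinearMap.finrank_range_of_inj e4
      rw [LinearMap.range_domRestrict] at e6
      rw [e2, e6]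
      exact e1.trans h3
  rcases hj with ⟨h1, h2⟩ | ⟨h1, h2⟩
  · exact mac_swap (key T S (mac_swap hM) h2 h1)
  · exact key S T hM h1 h2

/-- the labels of the ends of an edge are not comparable -/
theorem con (hm : Mn Ad A h S T F R) {d : D} (hd : d ∈ F) {x y : W} (hj : Jn S T d x y)
    (hl : ∀ u, x ∈ R u → y ∈ R u) : False := by
  have hxy := hm.loop hd hj
  obtain ⟨v, hv, _⟩ := hm.edge hd hj
  have hx : x ∈ us R := mem_us.2 ⟨v, hv⟩
  have h1 := hm.min _ _ (F.erase d) _
    (rp_del (F' := F.erase d) (rp_merge hm.rp hxy hl) (fun v => cn_del (by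
      intro a b hj' _ _
      have h2 := jn_ctr hj (ctr y x)
      rw [ctr_self, ctr_ne hxy.symm] at h2
      rcases hj' with ⟨h3, h4⟩ | ⟨h3, h4⟩ <;> rcases h2 with ⟨h5, h6⟩ | ⟨h5, h6⟩ <;>
        rw [← h3, ← h4, h5, h6])
      (cn_merge hxy (hl v) (hm.rp.cn v))))
    (mac_con hm.mac hd hj hxy)
  rw [us_merge, card_erase_of_mem hx, card_erase_of_mem hd] at h1
  have := card_pos.2 ⟨x, hx⟩
  have := card_pos.2 ⟨d, hd⟩
  omega

/-- every used vertex is in a second region -/
theorem two (hm : Mn Ad A h S T F R) {x : W} {v : V} (hx : x ∈ R v) :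
    ∃ w, w ≠ v ∧ x ∈ R w := by
  by_contra hcon
  push Not at hcon
  have hone : ∀ w, x ∈ R w → w = v := by
    intro w hw
    by_contra hne
    exact hcon w hne hw
  by_cases hs : R v = {x}
  · -- the region is not needed
    have h1 := hm.min S T F (Function.update R v ∅) (by
      refine ⟨fun w => ?_, fun w hw => ?_, fun u w hu hw huw => ?_⟩
      · by_cases hwv : w = v
        · rw [hwv, Function.update_self]; exact cn_empty _ _ _
        · rw [Function.update_of_ne hwv]; exact hm.rp.cn w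
      · by_cases hwv : w = v
        · rw [hwv, Function.update_self]
        · rw [Function.update_of_ne hwv]; exact hm.rp.out w hw
      · rw [hm.rp.ad u w hu hw huw]
        constructor
        · rintro ⟨z, hz1, hz2⟩
          have h3 : ∀ a b, a ≠ b → z ∈ R a → z ∈ R b → a ≠ v := by
            rintro a b hab ha hb rfl
            rw [hs, mem_singleton] at ha
            subst ha
            exact hab (hone b hb).symm
          refine ⟨z, ?_, ?_⟩
          · rw [Function.update_of_ne (h3 u w huw hz1 hz2)]; exact hz1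
          · rw [Function.update_of_ne (h3 w u huw.symm hz2 hz1)]; exact hz2
        · rintro ⟨z, hz1, hz2⟩
          have h3 : ∀ a, z ∈ Function.update R v ∅ a → z ∈ R a := by
            intro a ha
            by_cases hav : a = v
            · rw [hav, Function.update_self] at ha
              exact absurd ha (notMem_empty _)
            · rwa [Function.update_of_ne hav] at ha
          exact ⟨z, h3 u hz1, h3 w hz2⟩) hm.mac
    have h2 : us (Function.update R v ∅) ⊆ (us R).erase x := by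
      intro z hz
      obtain ⟨w, hw⟩ := mem_us.1 hz
      have hwv : w ≠ v := by
        rintro rfl
        rw [Function.update_self] at hw
        exact notMem_empty _ hw
      rw [Function.update_of_ne hwv] at hw
      refine mem_erase.2 ⟨?_, mem_us.2 ⟨w, hw⟩⟩
      rintro rfl
      exact hwv (hone w hw)
    have h3 := card_le_card h2
    have hxu : x ∈ us R := mem_us.2 ⟨v, hx⟩
    rw [card_erase_of_mem hxu] at h3
    have := card_pos.2 ⟨x, hxu⟩
    omega
  · obtain ⟨d, hd, a, b, hj, ha, hb, _⟩ := hm.rp.cn v {x} (singleton_subset_iff.2 hx)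
      (singleton_nonempty _) (fun h => hs h.symm)
    rw [mem_singleton] at ha
    subst ha
    refine hm.con hd hj ?_
    intro u hu
    rw [hone u hu]
    exact hb

/-- every vertex is in at most two regions if there are no triangles -/
theorem atmost (hm : Mn Ad A h S T F R) (htri : ∀ a b c, Ad a b → Ad b c → Ad c a → False)
    {x : W} {u v w : V} (hu : x ∈ R u) (hv : x ∈ R v) (huv : u ≠ v) (hw : x ∈ R w) :
    w = u ∨ w = v := by
  by_contra hcon
  push Not at hcon
  exact htri u v w (hm.rp.adj hu hv huv) (hm.rp.adj hv hw hcon.2.symm) (hm.rp.adj hw hu hcon.1)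

/-- an edge is in one region only -/
theorem one (hm : Mn Ad A h S T F R) (htri : ∀ a b c, Ad a b → Ad b c → Ad c a → False)
    {d : D} (hd : d ∈ F) {a b : W} (hj : Jn S T d a b) {u v : V} (h1 : a ∈ R u) (h2 : b ∈ R u)
    (h3 : a ∈ R v) (h4 : b ∈ R v) : u = v := by
  by_contra huv
  refine hm.con hd hj ?_
  intro w hw
  rcases hm.atmost htri h1 h3 huv hw with rfl | rfl
  · exact h2
  · exact h4

/-- the regions are trees -/
theorem acyc (hm : Mn Ad A h S T F R) (htri : ∀ a b c, Ad a b → Ad b c → Ad c a → False)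
    {v : V} {z : D → ZMod 2} (hz : z ∈ ZF S T F)
    (hR : ∀ d, z d ≠ 0 → S d ∈ R v ∧ T d ∈ R v) : z = 0 := by
  by_contra h0
  obtain ⟨d, hd0⟩ := Function.ne_iff.1 h0
  have hd : z d ≠ 0 := hd0
  have hdF : d ∈ F := by
    by_contra h
    exact hd (hz.1 d h)
  refine hm.del hdF fun w => ?_
  by_cases hwv : w = v
  · rw [hwv]
    exact cn_del_cyc hz hR hd (hm.rp.cn v)
  · refine cn_del ?_ (hm.rp.cn w)
    intro a b hj ha hb
    exfalso
    obtain ⟨h1, h2⟩ := hR d hd
    rcases hj with ⟨h3, h4⟩ | ⟨h3, h4⟩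
    · rw [h3] at h1
      rw [h4] at h2
      exact hwv (hm.one htri hdF (Or.inl ⟨h3, h4⟩) ha hb h1 h2)
    · rw [h3] at h1
      rw [h4] at h2
      exact hwv (hm.one htri hdF (Or.inl ⟨h3, h4⟩) hb ha h1 h2)

/-- two vertices of a face have different labels -/
theorem face_ne (hm : Mn Ad A h S T F R) {ι : Type} [Fintype ι] {K : ι → D → ZMod 2}
    (hK : Fam h S T F K) (i0 : ι) {x y : W} (hxy : x ≠ y)
    (hl : Lk S T (fun d => K i0 d ≠ 0) y x) (hx : x ∈ us R)
    (hlab : ∀ u, x ∈ R u → y ∈ R u) : False := by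
  obtain ⟨P, hP, hb⟩ := hl
  exact hm.merge hxy hx hlab (mac_id hK i0 hxy.symm hP hb)

end Mn

end rp

end Pool.Agent.K4H84.ST
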